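import Mathlib
import Pool.Agent.H46R3.DG.Stmts

set_option autoImplicit false

/-!
# H46-DG TaskH: assembling the blocks
-/

namespace Pool.Agent.H715R3.DG

open Finset
open Pool.Agent.H46R3.DG

lemma cnt_le (q m L b : ℕ) : cnt q m L b ≤ L := by
  unfold cnt
  exact (card_filter_le _ _).trans (by simp)

lemma cnt_add (q m a c b : ℕ) : cnt q m (a + c) b = cnt q m a b + cnt q (m / q ^ a) c b := by
  unfold cnt
  rw [card_filter, card_filter, card_filter, sum_range_add]
  congr 1
  refine sum_congr rfl fun x _ => ?_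
  rw [Nat.div_div_eq_div_mul, ← pow_add]

lemma cnt_mod (q m l b : ℕ) : cnt q (m % q ^ l) l b = cnt q m l b := by
  unfold cnt
  congr 1
  refine filter_congr fun i hi => ?_
  have hi' : i < l := mem_range.1 hi
  have e : q ^ l = q ^ i * q ^ (l - i) := by rw [← pow_add]; congr 1; omega
  rw [e, Nat.mod_mul_right_div_self, Nat.mod_mod_of_dvd]
  exact dvd_pow_self q (by omega)

lemma cnt_blocks (q m s l b : ℕ) (B : ℕ) :
    cnt q m (s + B * l) b =
      cnt q m s b + ∑ i ∈ range B, cnt q (m / q ^ (s + i * l) % q ^ l) l b := by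
  induction B with
  | zero => simp
  | succ B ih =>
    rw [sum_range_succ, ← add_assoc, ← ih, Nat.succ_mul, ← add_assoc, cnt_add, cnt_mod]

lemma dev (q m s l B W b : ℕ) (X : ℝ) (hq : 1 ≤ q) (hW : s + B * l ≤ W)
    (h2 : W ≤ s + B * l + l) (hX : (W : ℝ) ≤ X) (hX2 : X ≤ W + 1) :
    |(cnt q m W b : ℝ) - X / q| ≤
      (∑ i ∈ range B, |(cnt q (m / q ^ (s + i * l) % q ^ l) l b : ℝ) - (l : ℝ) / q|) +
        (s + l + 1) := by
  obtain ⟨r, rfl⟩ := Nat.exists_eq_add_of_le hW
  have hr : r ≤ l := by omega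
  have e1 := cnt_add q m (s + B * l) r b
  rw [cnt_blocks] at e1
  have h3 := cnt_le q m s b
  have h4 := cnt_le q (m / q ^ (s + B * l)) r b
  have hq' : (1 : ℝ) ≤ q := by exact_mod_cast hq
  have hq0 : (0 : ℝ) < q := by linarith
  have e2 : (cnt q m (s + B * l + r) b : ℝ) - X / q =
      (∑ i ∈ range B, ((cnt q (m / q ^ (s + i * l) % q ^ l) l b : ℝ) - (l : ℝ) / q)) +
      ((cnt q m s b : ℝ) + (cnt q (m / q ^ (s + B * l)) r b : ℝ) - (X - B * l) / q) := by
    rw [e1, sum_sub_distrib, sum_const, card_range]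
    push_cast
    rw [nsmul_eq_mul]
    ring
  rw [e2]
  refine (abs_add_le _ _).trans (add_le_add (abs_sum_le_sum_abs _ _) ?_)
  have h3' : (cnt q m s b : ℝ) ≤ s := by exact_mod_cast h3
  have h4' : (cnt q (m / q ^ (s + B * l)) r b : ℝ) ≤ l := by exact_mod_cast h4.trans hr
  have h5 : (0 : ℝ) ≤ cnt q m s b := by positivity
  have h6 : (0 : ℝ) ≤ cnt q (m / q ^ (s + B * l)) r b := by positivity
  push_cast at hX hX2
  have hr' : (r : ℝ) ≤ l := by exact_mod_cast hr
  have hs0 : (0 : ℝ) ≤ s := by positivity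
  have hr0 : (0 : ℝ) ≤ r := by positivity
  have h7 : 0 ≤ X - B * l := by linarith
  have h8 : X - B * l ≤ s + l + 1 := by linarith
  have h9 : 0 ≤ (X - B * l) / q := by positivity
  have h10 : (X - B * l) / q ≤ X - B * l := div_le_self h7 hq'
  rw [abs_le]
  constructor <;> linarith

lemma fiber_bound (q l N : ℕ) (x : ℕ → ℕ) (P : ℕ → Prop) [DecidablePred P] (Y : ℝ)
    (hq : 0 < q)
    (hY : ∀ w ∈ range (q ^ l), ((#{n ∈ range N | x n % q ^ l = w} : ℕ) : ℝ) ≤ Y) :
    ((#{n ∈ range N | P (x n % q ^ l)} : ℕ) : ℝ) ≤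
      ((#{w ∈ range (q ^ l) | P w} : ℕ) : ℝ) * Y := by
  classical
  have hsub : {n ∈ range N | P (x n % q ^ l)} ⊆
      ({w ∈ range (q ^ l) | P w}).biUnion (fun w => {n ∈ range N | x n % q ^ l = w}) := by
    intro n hn
    rw [mem_filter] at hn
    rw [mem_biUnion]
    refine ⟨x n % q ^ l, ?_, ?_⟩
    · rw [mem_filter]
      exact ⟨mem_range.2 (Nat.mod_lt _ (pow_pos hq l)), hn.2⟩
    · rw [mem_filter]
      exact ⟨hn.1, rfl⟩
  have h1 : (#{n ∈ range N | P (x n % q ^ l)}) ≤
      ∑ w ∈ range (q ^ l) with P w, #{n ∈ range N | x n % q ^ l = w} :=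
    (card_le_card hsub).trans card_biUnion_le
  calc ((#{n ∈ range N | P (x n % q ^ l)} : ℕ) : ℝ)
      ≤ ((∑ w ∈ range (q ^ l) with P w, #{n ∈ range N | x n % q ^ l = w} : ℕ) : ℝ) := by
        exact_mod_cast h1
    _ = ∑ w ∈ range (q ^ l) with P w, ((#{n ∈ range N | x n % q ^ l = w} : ℕ) : ℝ) := by
        push_cast; rfl
    _ ≤ ∑ w ∈ range (q ^ l) with P w, Y :=
        sum_le_sum fun w hw => hY w (mem_of_mem_filter w hw)
    _ = ((#{w ∈ range (q ^ l) | P w} : ℕ) : ℝ) * Y := by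
        rw [sum_const, nsmul_eq_mul]

lemma numeric {q : ℕ} (hq : 2 ≤ q) {η κ δ K γ N : ℝ} {l : ℕ} (hη : 0 < η) (hK : 0 < K)
    (hN : 1 ≤ N) (h1 : (l : ℝ) ≤ κ * Real.log N) (h2 : κ * Real.log N < l + 1)
    (hκ : κ * Real.log q ≤ δ / 2) (hγ1 : γ ≤ η * κ * Real.log q) (hγ2 : γ ≤ δ / 2) :
    (q : ℝ) ^ ((1 - η) * (l : ℝ)) * (N / (q : ℝ) ^ l + K * N ^ (1 - δ)) ≤
      ((q : ℝ) ^ η + K) * N ^ (1 - γ) := by
  have hq0 : (0 : ℝ) < q := by positivity
  have hq1 : (1 : ℝ) ≤ q := by exact_mod_cast (by omega : 1 ≤ q)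
  have hlq : 0 ≤ Real.log q := Real.log_nonneg hq1
  have hN0 : 0 < N := by linarith
  have hL : 0 ≤ Real.log N := Real.log_nonneg hN
  rw [mul_add, add_mul]
  refine add_le_add ?_ ?_
  · have e1 : (q : ℝ) ^ ((1 - η) * (l : ℝ)) * (N / (q : ℝ) ^ l) =
        Real.exp (-(η * l * Real.log q)) * N := by
      rw [← Real.rpow_natCast (q : ℝ) l, Real.rpow_def_of_pos hq0, Real.rpow_def_of_pos hq0,
        mul_div_assoc', mul_comm _ N, mul_div_assoc, ← Real.exp_sub, mul_comm N]
      congr 2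
      ring
    have e2 : (q : ℝ) ^ η * N ^ (1 - γ) =
        Real.exp (η * Real.log q - γ * Real.log N) * N := by
      rw [Real.rpow_sub hN0, Real.rpow_one, Real.rpow_def_of_pos hq0, Real.rpow_def_of_pos hN0,
        Real.exp_sub]
      field_simp
    rw [e1, e2]
    refine mul_le_mul_of_nonneg_right (Real.exp_le_exp.2 ?_) hN0.le
    have h3 : γ * Real.log N ≤ η * κ * Real.log q * Real.log N :=
      mul_le_mul_of_nonneg_right hγ1 hL
    have h4 : (η * Real.log q) * (κ * Real.log N) ≤ (η * Real.log q) * (l + 1) :=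
      mul_le_mul_of_nonneg_left h2.le (by positivity)
    nlinarith
  · have e1 : (q : ℝ) ^ ((1 - η) * (l : ℝ)) * (K * N ^ (1 - δ)) =
        K * (Real.exp ((1 - η) * l * Real.log q + (1 - δ) * Real.log N)) := by
      rw [Real.rpow_def_of_pos hq0, Real.rpow_def_of_pos hN0, Real.exp_add]
      rw [mul_comm (Real.log q), mul_comm (Real.log N)]
      ring
    have e2 : N ^ (1 - γ) = Real.exp ((1 - γ) * Real.log N) := by
      rw [Real.rpow_def_of_pos hN0, mul_comm]
    rw [e1, e2]
    refine mul_le_mul_of_nonneg_left (Real.exp_le_exp.2 ?_) hK.le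
    have h3 : γ * Real.log N ≤ δ / 2 * Real.log N := mul_le_mul_of_nonneg_right hγ2 hL
    have h4 : (l : ℝ) * Real.log q ≤ κ * Real.log N * Real.log q :=
      mul_le_mul_of_nonneg_right h1 hlq
    have h5 : κ * Real.log q * Real.log N ≤ δ / 2 * Real.log N :=
      mul_le_mul_of_nonneg_right hκ hL
    have h6 : 0 ≤ η * (l * Real.log q) := by positivity
    nlinarith

theorem taskH : TaskH := by
  classical
  intro hG p q s hp hq hB C ε hC hε
  have hq2 : 2 ≤ q := hq.two_le
  have hq0 : (0 : ℝ) < q := by positivity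
  have hlq : 0 < Real.log q := Real.log_pos (by exact_mod_cast hq.one_lt)
  obtain ⟨η, KG, hη, hKG, hGG⟩ := hG q (ε / (4 * C)) hq2 (by positivity)
  obtain ⟨δ, K, hδ, hK, hBB⟩ := hB C hC
  obtain ⟨κ, hκ, hκ1, hκ2⟩ : ∃ κ : ℝ, 0 < κ ∧ κ * Real.log q ≤ δ / 2 ∧ κ ≤ ε / 8 := by
    refine ⟨min (δ / 2 / Real.log q) (ε / 8), lt_min (by positivity) (by positivity), ?_,
      min_le_right _ _⟩
    calc min (δ / 2 / Real.log q) (ε / 8) * Real.log q ≤ (δ / 2 / Real.log q) * Real.log q :=
          mul_le_mul_of_nonneg_right (min_le_left _ _) hlq.le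
      _ = δ / 2 := by field_simp
  obtain ⟨γ, hγ, hγ1, hγ2⟩ : ∃ γ : ℝ, 0 < γ ∧ γ ≤ η * κ * Real.log q ∧ γ ≤ δ / 2 :=
    ⟨min (η * κ * Real.log q) (δ / 2), lt_min (by positivity) (by positivity), min_le_left _ _,
      min_le_right _ _⟩
  set L1 : ℝ := 2 * (s + 1) / ε + 1 / κ + s / C with hL1
  have hL1' : 0 ≤ L1 := by positivity
  refine ⟨γ / 2, q * C * KG * ((q : ℝ) ^ η + K) * (2 / γ) + Real.exp (γ / 2 * L1),
    by positivity, by positivity, ?_⟩
  intro N hN
  have hN1 : (1 : ℝ) ≤ N := by exact_mod_cast hN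
  have hN0 : (0 : ℝ) < N := by linarith
  have hL0 : 0 ≤ Real.log N := Real.log_nonneg hN1
  rcases lt_or_ge (Real.log N) L1 with hsmall | hlarge
  · -- small `N`
    refine (show ((#_ : ℕ) : ℝ) ≤ N by
      exact_mod_cast (card_filter_le _ _).trans (by simp)).trans ?_
    have h2 : (N : ℝ) ≤ Real.exp (γ / 2 * L1) * (N : ℝ) ^ (1 - γ / 2) := by
      rw [Real.rpow_def_of_pos hN0, ← Real.exp_add]
      calc (N : ℝ) = Real.exp (Real.log N) := (Real.exp_log hN0).symm
        _ ≤ _ := Real.exp_le_exp.2 (by nlinarith)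
    refine h2.trans (mul_le_mul_of_nonneg_right ?_ (by positivity))
    have : 0 ≤ (q : ℝ) * C * KG * ((q : ℝ) ^ η + K) * (2 / γ) := by positivity
    linarith
  · -- large `N`
    have ha : 2 * (s + 1) / ε ≤ Real.log N :=
      le_trans (by rw [hL1]; have : 0 ≤ 1 / κ := by positivity
                   have : 0 ≤ (s : ℝ) / C := by positivity
                   linarith) hlarge
    have hb : 1 / κ ≤ Real.log N :=
      le_trans (by rw [hL1]; have : 0 ≤ 2 * ((s : ℝ) + 1) / ε := by positivity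
                   have : 0 ≤ (s : ℝ) / C := by positivity
                   linarith) hlarge
    have hc : (s : ℝ) / C ≤ Real.log N :=
      le_trans (by rw [hL1]; have : 0 ≤ 2 * ((s : ℝ) + 1) / ε := by positivity
                   have : 0 ≤ 1 / κ := by positivity
                   linarith) hlarge
    have ha' : 2 * ((s : ℝ) + 1) ≤ ε * Real.log N := by
      rw [div_le_iff₀ hε] at ha; linarith
    have hb' : 1 ≤ κ * Real.log N := by
      rw [div_le_iff₀ hκ] at hb; linarith
    have hc' : (s : ℝ) ≤ C * Real.log N := by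
      rw [div_le_iff₀ hC] at hc; linarith
    set W : ℕ := ⌊C * Real.log N⌋₊ with hWdef
    have hW1 : (W : ℝ) ≤ C * Real.log N := Nat.floor_le (by positivity)
    have hW2 : C * Real.log N < W + 1 := Nat.lt_floor_add_one _
    obtain ⟨l, hl1, hl2, hl3⟩ : ∃ l : ℕ, (l : ℝ) ≤ κ * Real.log N ∧ κ * Real.log N < l + 1 ∧
        1 ≤ l := ⟨⌊κ * Real.log N⌋₊, Nat.floor_le (by positivity), Nat.lt_floor_add_one _,
          Nat.le_floor (by simpa using hb')⟩
    have hsW : s ≤ W := Nat.le_floor hc'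
    obtain ⟨B, hB1, hB2⟩ : ∃ B : ℕ, s + B * l ≤ W ∧ W ≤ s + B * l + l := by
      refine ⟨(W - s) / l, ?_, ?_⟩
      · have := Nat.div_mul_le_self (W - s) l
        omega
      · have h1 := Nat.div_add_mod (W - s) l
        have h2 := Nat.mod_lt (W - s) (by omega : 0 < l)
        rw [mul_comm] at h1
        omega
    have hBW : B ≤ W := by
      have : B * 1 ≤ B * l := Nat.mul_le_mul_left _ hl3
      omega
    have hBC : (B : ℝ) ≤ C * Real.log N := le_trans (by exact_mod_cast hBW) hW1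
    set Y : ℝ := (N : ℝ) / (q : ℝ) ^ l + K * (N : ℝ) ^ (1 - δ) with hY
    have hY0 : 0 ≤ Y := by positivity
    -- the inclusion
    have hincl : {n ∈ range N | ∃ b < q, ε * Real.log N <
        |(cnt q (p ^ n) W b : ℝ) - C * Real.log N / q|} ⊆
        (range q).biUnion fun b => (range B).biUnion fun i =>
          {n ∈ range N | ε / (4 * C) * l <
            |(cnt q (p ^ n / q ^ (s + i * l) % q ^ l) l b : ℝ) - (l : ℝ) / q|} := by
      intro n hn
      rw [mem_filter] at hn
      obtain ⟨hnN, b, hb, hdev⟩ := hn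
      rw [mem_biUnion]
      refine ⟨b, mem_range.2 hb, ?_⟩
      rw [mem_biUnion]
      by_contra hcon
      push Not at hcon
      have h1 : ∀ i ∈ range B, |(cnt q (p ^ n / q ^ (s + i * l) % q ^ l) l b : ℝ) - (l : ℝ) / q|
          ≤ ε / (4 * C) * l := by
        intro i hi
        have := hcon i hi
        rw [mem_filter] at this
        push Not at this
        exact this hnN
      have h2 := dev q (p ^ n) s l B W b (C * Real.log N) (by omega) hB1 hB2 hW1 hW2.le
      have h3 := sum_le_sum h1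
      rw [sum_const, card_range, nsmul_eq_mul] at h3
      have h4 : (B : ℝ) * l ≤ C * Real.log N := by
        refine le_trans ?_ hW1
        exact_mod_cast (by omega : B * l ≤ W)
      have h5 : (B : ℝ) * (ε / (4 * C) * l) ≤ ε * Real.log N / 4 := by
        calc (B : ℝ) * (ε / (4 * C) * l) = ε / (4 * C) * (B * l) := by ring
          _ ≤ ε / (4 * C) * (C * Real.log N) := mul_le_mul_of_nonneg_left h4 (by positivity)
          _ = ε * Real.log N / 4 := by field_simp
      have h6 : (l : ℝ) ≤ ε / 8 * Real.log N :=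
        hl1.trans (mul_le_mul_of_nonneg_right hκ2 hL0)
      have h7 : 0 ≤ ε * Real.log N := by positivity
      linarith
    -- the count for one block
    have hone : ∀ b ∈ range q, ∀ i ∈ range B, ((#{n ∈ range N | ε / (4 * C) * l <
            |(cnt q (p ^ n / q ^ (s + i * l) % q ^ l) l b : ℝ) - (l : ℝ) / q|} : ℕ) : ℝ) ≤
          KG * (q : ℝ) ^ ((1 - η) * (l : ℝ)) * Y := by
      intro b hb i hi
      have hi' : i < B := mem_range.1 hi
      have h1 := fiber_bound q l N (fun n => p ^ n / q ^ (s + i * l))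
        (fun w => ε / (4 * C) * l < |(cnt q w l b : ℝ) - (l : ℝ) / q|) Y (by omega) (by
          intro w hw
          have h2 := hBB N (s + i * l) l w hN (by omega) (by
            refine le_trans ?_ hW1
            have : (i + 1) * l ≤ B * l := Nat.mul_le_mul_right _ hi'
            have h3 : s + i * l + l ≤ W := by
              rw [Nat.succ_mul] at this
              omega
            exact_mod_cast h3) (mem_range.1 hw)
          have h3 := (abs_le.1 h2).2
          rw [hY]
          linarith)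
      refine h1.trans (mul_le_mul_of_nonneg_right ?_ hY0)
      exact hGG l b (mem_range.1 hb)
    -- the total count
    have htot : ((#{n ∈ range N | ∃ b < q, ε * Real.log N <
        |(cnt q (p ^ n) W b : ℝ) - C * Real.log N / q|} : ℕ) : ℝ) ≤
        q * (B * (KG * (q : ℝ) ^ ((1 - η) * (l : ℝ)) * Y)) := by
      have h1 := (card_le_card hincl).trans card_biUnion_le
      have h2 : (#{n ∈ range N | ∃ b < q, ε * Real.log N <
          |(cnt q (p ^ n) W b : ℝ) - C * Real.log N / q|}) ≤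
          ∑ b ∈ range q, ∑ i ∈ range B, #{n ∈ range N | ε / (4 * C) * l <
            |(cnt q (p ^ n / q ^ (s + i * l) % q ^ l) l b : ℝ) - (l : ℝ) / q|} :=
        h1.trans (sum_le_sum fun b _ => card_biUnion_le)
      calc ((#{n ∈ range N | ∃ b < q, ε * Real.log N <
          |(cnt q (p ^ n) W b : ℝ) - C * Real.log N / q|} : ℕ) : ℝ) ≤
          ((∑ b ∈ range q, ∑ i ∈ range B, #{n ∈ range N | ε / (4 * C) * l <
            |(cnt q (p ^ n / q ^ (s + i * l) % q ^ l) l b : ℝ) - (l : ℝ) / q|} : ℕ) : ℝ) := by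
            exact_mod_cast h2
        _ = ∑ b ∈ range q, ∑ i ∈ range B, ((#{n ∈ range N | ε / (4 * C) * l <
            |(cnt q (p ^ n / q ^ (s + i * l) % q ^ l) l b : ℝ) - (l : ℝ) / q|} : ℕ) : ℝ) := by
            push_cast; rfl
        _ ≤ ∑ b ∈ range q, ∑ i ∈ range B, KG * (q : ℝ) ^ ((1 - η) * (l : ℝ)) * Y :=
            sum_le_sum fun b hb => sum_le_sum fun i hi => hone b hb i hi
        _ = q * (B * (KG * (q : ℝ) ^ ((1 - η) * (l : ℝ)) * Y)) := by
            rw [sum_const, sum_const, card_range, card_range, nsmul_eq_mul, nsmul_eq_mul]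
    refine htot.trans ?_
    have hnum := numeric hq2 hη hK hN1 hl1 hl2 hκ1 hγ1 hγ2
    have hlog : Real.log N ≤ (N : ℝ) ^ (γ / 2) * (2 / γ) := by
      have := Real.log_le_rpow_div hN0.le (by positivity : 0 < γ / 2)
      refine this.trans (le_of_eq ?_)
      field_simp
    have hB' : (B : ℝ) ≤ C * ((N : ℝ) ^ (γ / 2) * (2 / γ)) :=
      hBC.trans (mul_le_mul_of_nonneg_left hlog hC.le)
    have hmain : (q : ℝ) * (B * (KG * (q : ℝ) ^ ((1 - η) * (l : ℝ)) * Y)) ≤
        q * C * KG * ((q : ℝ) ^ η + K) * (2 / γ) * (N : ℝ) ^ (1 - γ / 2) := by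
      calc (q : ℝ) * (B * (KG * (q : ℝ) ^ ((1 - η) * (l : ℝ)) * Y))
          = q * KG * (B * ((q : ℝ) ^ ((1 - η) * (l : ℝ)) * Y)) := by ring
        _ ≤ q * KG * (C * ((N : ℝ) ^ (γ / 2) * (2 / γ)) *
            (((q : ℝ) ^ η + K) * (N : ℝ) ^ (1 - γ))) := by
            refine mul_le_mul_of_nonneg_left ?_ (by positivity)
            exact mul_le_mul hB' hnum (by positivity) (by positivity)
        _ = q * C * KG * ((q : ℝ) ^ η + K) * (2 / γ) *
            ((N : ℝ) ^ (γ / 2) * (N : ℝ) ^ (1 - γ)) := by ring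
        _ = q * C * KG * ((q : ℝ) ^ η + K) * (2 / γ) * (N : ℝ) ^ (1 - γ / 2) := by
            rw [← Real.rpow_add hN0]
            congr 2
            ring
    refine hmain.trans (mul_le_mul_of_nonneg_right ?_ (by positivity))
    have : 0 ≤ Real.exp (γ / 2 * L1) := by positivity
    linarith

end Pool.Agent.H715R3.DG
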